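import Pool.Agent.Q16.CPM.Small
import Pool.Agent.Q16.CPM.Comp

namespace Pool.Agent.Results.MP_bd8ab5_nt.Recognition

open Pool.Agent.Q16.CPM

theorem le_foldr (G : List ℕ) (x : ℕ) (hx : x ∈ G) : x ≤ G.foldr (fun x s => x + s) 0 := by
  induction G with
  | nil => simp at hx
  | cons g G ih =>
    rw [List.mem_cons] at hx
    rw [List.foldr_cons]
    rcases hx with rfl | hx
    · omega
    · have := ih hx; omega

/-- Membership test on positive integers, natural-number form. -/
def Sol (S : ℕ → Prop) (a b c d : ℕ) : Prop :=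
  b ≠ 0 ∧ c ≠ 0 ∧ ∀ x : ℕ, 1 ≤ x → (S x ↔ a * x % b + d ≤ c * x)

theorem exists_small (S : ℕ → Prop) (n : ℕ) (hn1 : 1 ≤ n) (hn : ∀ x, n ≤ x → S x) (a b c d : ℕ)
    (hsol : Sol S a b c d) :
    ∃ a' b' c' d' : ℕ, Sol S a' b' c' d' ∧ a' ≤ NB n ∧ b' ≤ NB n ∧ c' ≤ NB n ∧
      d' ≤ NB n * n := by
  classical
  have hN2 : 2 ≤ NB n := by
    unfold NB
    have h1 := Nat.factorial_pos (xB n)
    nlinarith
  by_cases hno : ∃ x y, 1 ≤ x ∧ x < y ∧ S x ∧ ¬ S y
  · obtain ⟨hb, hc, h⟩ := hsol
    have hbQ : (0:ℚ) < b := by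
      have : 0 < b := Nat.pos_of_ne_zero hb
      exact_mod_cast this
    have hcQ : (0:ℚ) < c := by
      have : 0 < c := Nat.pos_of_ne_zero hc
      exact_mod_cast this
    have hmod : a % b < b := Nat.mod_lt _ (Nat.pos_of_ne_zero hb)
    have hX : xB n + 1 = n + (n+1)^2 := by
      unfold xB
      have : 1 ≤ n + (n+1)*(n+1) := by nlinarith
      rw [Nat.sub_add_cancel this]; ring
    obtain ⟨k, P, Q, x0, h1, h2, h3, h4, h5, h6, h7, h8, h9, h10, h11, h12, h13⟩ :=
      approx S n hn hno ((a % b : ℕ) / (b:ℚ)) (c / b) (d / b) (by positivity)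
        (by rw [div_lt_one hbQ]; exact_mod_cast hmod) (by positivity) (by positivity)
        (by
          intro x hx
          rw [h x hx]
          have e1 : ((a % b : ℕ) : ℚ) / b * x = (((a % b) * x : ℕ) : ℚ) / ((b:ℕ):ℚ) := by
            push_cast; ring
          rw [e1, Int.fract_div_natCast_eq_div_natCast_mod, Nat.mod_mul_mod]
          have e2 : (c:ℚ) / b * x - d / b = (c * x - d) / b := by ring
          rw [e2, div_le_div_iff_of_pos_right hbQ]
          constructor
          · intro h'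
            have : ((a * x % b + d : ℕ) : ℚ) ≤ ((c * x : ℕ) : ℚ) := by exact_mod_cast h'
            push_cast at this
            linarith
          · intro h'
            have : ((a * x % b + d : ℕ) : ℚ) ≤ ((c * x : ℕ) : ℚ) := by
              push_cast
              linarith
            exact_mod_cast this) (xB n) hX _ rfl
    obtain ⟨a', c', d', g1, g2, g3, g4, g5⟩ :=
      small S n hn hn1 (xB n) (Nat.factorial (xB n)) (NB n) (2 * (xB n + 1)) (by nlinarith)
        (Nat.factorial_pos _) rfl rfl k P Q x0 h1 h2 h3 h4 h5 h6 h7 h8 h9 h10 h11 h12 h13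
    exact ⟨a', NB n, c', d', ⟨by omega, by omega, g5⟩, g1.le, le_rfl, g3.le, g4⟩
  · push Not at hno
    -- ordinary case
    have hex : ∃ x, 1 ≤ x ∧ S x := ⟨n, hn1, hn n le_rfl⟩
    have hspec := Nat.find_spec hex
    have hle : Nat.find hex ≤ n := Nat.find_min' hex ⟨hn1, hn n le_rfl⟩
    refine ⟨0, 1, 1, Nat.find hex, ⟨by omega, by omega, ?_⟩, by omega, by omega, by omega, ?_⟩
    · intro x hx
      rw [zero_mul, Nat.zero_mod, zero_add, one_mul]
      constructor
      · intro hSx
        exact Nat.find_min' hex ⟨hx, hSx⟩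
      · intro h1
        rcases Nat.lt_or_ge (Nat.find hex) x with h2 | h2
        · exact hno _ x hspec.1 h2 hspec.2
        · have : Nat.find hex = x := le_antisymm h1 h2
          rw [← this]; exact hspec.2
    · nlinarith

theorem test_iff (G : List ℕ) (S : ℕ → Prop) (hS : ∀ x, ¬ S x ↔ x ∈ G) :
    Test G ↔ ∃ a b c d : ℕ, Sol S a b c d := by
  have hn : ∀ x, nB G ≤ x → S x := by
    intro x hx
    by_contra hc
    have := le_foldr G x ((hS x).1 hc)
    unfold nB at hx
    omega
  have hn1 : 1 ≤ nB G := by unfold nB; omega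
  have hMn : nB G + 2 ≤ MB G := by unfold MB; omega
  constructor
  · rintro ⟨a, ha, b, hb, c, hc, d, hd, hb0, hc0, h⟩
    refine ⟨a, b, c, d, hb0, hc0, ?_⟩
    intro x hx
    by_cases hx2 : x < 2 * MB G
    · have h1 := h x hx2
      unfold R5 at h1
      rcases h1 with h1 | ⟨h1, h2⟩ | ⟨h1, h2⟩
      · omega
      · refine ⟨fun _ => h2, fun _ => ?_⟩
        by_contra hc
        exact h1 ((hS x).1 hc)
      · refine ⟨fun hSx => absurd hSx ((hS x).2 h1), fun h3 => absurd h3 h2⟩
    · refine ⟨fun _ => ?_, fun _ => hn x (by omega)⟩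
      have h1 := Nat.mod_lt (a * x) (Nat.pos_of_ne_zero hb0)
      have h2 : x ≤ c * x := Nat.le_mul_of_pos_left x (Nat.pos_of_ne_zero hc0)
      omega
  · rintro ⟨a, b, c, d, hsol⟩
    obtain ⟨a', b', c', d', ⟨hb0, hc0, h⟩, h1, h2, h3, h4⟩ :=
      exists_small S (nB G) hn1 hn a b c d hsol
    have hM : MB G = NB (nB G) * nB G + NB (nB G) + nB G + 2 := by unfold MB; ring
    refine ⟨a', by omega, b', by omega, c', by omega, d', by omega, hb0, hc0, ?_⟩
    intro x _
    unfold R5
    by_cases hx0 : x = 0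
    · exact Or.inl hx0
    · right
      have h5 := h x (by omega)
      by_cases hSx : S x
      · left
        exact ⟨fun hc => (hS x).2 hc hSx, h5.1 hSx⟩
      · right
        exact ⟨(hS x).1 hSx, fun hc => hSx (h5.2 hc)⟩

/-- A numerical semigroup is contracted proportionally modular. -/
def IsCPM (S : AddSubmonoid ℕ) : Prop :=
  ∃ a b c d : ℕ, b ≠ 0 ∧ c ≠ 0 ∧
    ∀ x : ℤ, (∃ s ∈ S, (s : ℤ) = x) ↔ ((a : ℤ) * x % (b : ℤ) ≤ (c : ℤ) * x - d ∨ x = 0)

theorem isCPM_iff (S : AddSubmonoid ℕ) :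
    IsCPM S ↔ ∃ a b c d : ℕ, Sol (fun x => x ∈ S) a b c d := by
  have hcast : ∀ (a b c d x : ℕ), ((a : ℤ) * (x:ℤ) % (b : ℤ) ≤ (c : ℤ) * x - d) ↔
      a * x % b + d ≤ c * x := by
    intro a b c d x
    rw [le_sub_iff_add_le]
    constructor
    · intro h; exact_mod_cast h
    · intro h; exact_mod_cast h
  constructor
  · rintro ⟨a, b, c, d, hb, hc, h⟩
    refine ⟨a, b, c, d, hb, hc, ?_⟩
    intro x hx
    have h1 := h (x:ℤ)
    rw [hcast] at h1
    constructor
    · intro hxS
      rcases h1.1 ⟨x, hxS, rfl⟩ with h2 | h2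
      · exact h2
      · omega
    · intro h2
      obtain ⟨s, hs, hsx⟩ := h1.2 (Or.inl h2)
      have : s = x := by exact_mod_cast hsx
      rwa [this] at hs
  · rintro ⟨a, b, c, d, hb, hc, h⟩
    refine ⟨a, b, c, d, hb, hc, ?_⟩
    intro x
    constructor
    · rintro ⟨s, hs, rfl⟩
      by_cases hs0 : s = 0
      · right; simp [hs0]
      · left
        rw [hcast]
        exact (h s (by omega)).1 hs
    · rintro (h1 | h1)
      · have hb' : (0:ℤ) < b := by
          have : 0 < b := Nat.pos_of_ne_zero hb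
          exact_mod_cast this
        have hc' : (0:ℤ) < c := by
          have : 0 < c := Nat.pos_of_ne_zero hc
          exact_mod_cast this
        have h2 := Int.emod_nonneg ((a:ℤ) * x) (show (b:ℤ) ≠ 0 by omega)
        have hx0 : 0 ≤ x := by
          by_contra hcon
          push Not at hcon
          have : (c:ℤ) * x < 0 := mul_neg_of_pos_of_neg hc' hcon
          have hd : (0:ℤ) ≤ d := by positivity
          omega
        obtain ⟨n, rfl⟩ := Int.eq_ofNat_of_zero_le hx0
        refine ⟨n, ?_, rfl⟩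
        by_cases hn0 : n = 0
        · rw [hn0]; exact zero_mem _
        · refine (h n (by omega)).2 ?_
          rw [← hcast]
          exact h1
      · exact ⟨0, zero_mem _, by rw [h1]; rfl⟩

/-- There is an algorithm recognising contracted proportionally modular numerical semigroups. -/
theorem result : ∃ f : List ℕ → Bool, Computable f ∧
    ∀ (G : List ℕ) (S : AddSubmonoid ℕ), (∀ x, x ∉ S ↔ x ∈ G) → (f G = true ↔ IsCPM S) := by
  obtain ⟨hdec, hprim⟩ := primrec_Test
  refine ⟨fun G => decide (Test G), hprim.to_comp, ?_⟩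
  intro G S hS
  rw [decide_eq_true_iff, isCPM_iff, test_iff G (fun x => x ∈ S) hS]

end Pool.Agent.Results.MP_bd8ab5_nt.Recognition
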